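import Pool.Agent.helper56.P2B.SpecP
import Pool.Agent.helper1.P2.DIC

/-!
# Project p2b: (MP_70a088_an, block B): CVD, convergence of conformal radii and of the pseudo hyperbolic distance
-/

set_option autoImplicit false

open Complex Metric Set Filter Topology MeasureTheory
open Pool.Agent.helper98.ILF
open WP (it)
open HY (UD T S hd UN RM)
open PM
open PL (TP LO PZ GJ INR PG DK ht tr DI CY SUBH hG hq BJ)
open P2 (SS FLS FL CLS FR TL)

noncomputable section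

namespace P2B

/-- preimages converge. -/
theorem CVD_pre (hTHU : V3.THU_stmt) (V : Ultrafilter ℕ) (φ : ℕ → ℂ → ℂ) (χ : ℂ → ℂ)
    (hd : ∀ l, DifferentiableOn ℂ (φ l) UD) (hχi : InjOn χ UD)
    (hcv : TendstoLocallyUniformlyOn φ χ V UD) (u₀ : ℂ) (hu₀ : u₀ ∈ UD) (ζ : ℕ → ℂ)
    (hζ : Tendsto ζ V (𝓝 (χ u₀))) (ε : ℝ) (hε : 0 < ε) :
    ∀ᶠ l in (V : Filter ℕ), ∃ z ∈ UD, φ l z = ζ l ∧ dist z u₀ < ε := by
  have hopen : IsOpen UD := isOpen_ball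
  obtain ⟨r, hr, hrs⟩ := Metric.isOpen_iff.1 hopen u₀ hu₀
  have hmain := hTHU V (fun l z => φ l z - ζ l) (fun z => χ z - χ u₀) u₀ r hr
    (Eventually.of_forall fun l => ((hd l).mono hrs).sub_const (ζ l)) ?_ (sub_self _) ?_ (min ε r) (lt_min hε hr)
  · filter_upwards [hmain] with l hl
    obtain ⟨z, hz, hz0⟩ := hl
    refine ⟨z, hrs (ball_subset_ball (min_le_right _ _) hz), sub_eq_zero.1 hz0, ?_⟩
    exact lt_of_lt_of_le (mem_ball.1 hz) (min_le_left _ _)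
  · have h1 : TendstoLocallyUniformlyOn φ χ V (ball u₀ r) := hcv.mono hrs
    rw [Metric.tendstoLocallyUniformlyOn_iff] at h1 ⊢
    intro e he x hx
    obtain ⟨t, ht, h2⟩ := h1 (e / 2) (by linarith) x hx
    refine ⟨t, ht, ?_⟩
    filter_upwards [h2, Metric.tendsto_nhds.1 hζ (e / 2) (by linarith)] with l h3 h4 y hy
    have h5 := h3 y hy
    rw [dist_eq_norm] at h4 h5 ⊢
    have h6 : χ y - χ u₀ - (φ l y - ζ l) = (χ y - φ l y) + (ζ l - χ u₀) := by ring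
    rw [h6]
    refine lt_of_le_of_lt (norm_add_le _ _) ?_
    linarith
  · have h1 : u₀ + ((r / 2 : ℝ) : ℂ) ∈ ball u₀ r := by
      rw [mem_ball, dist_eq_norm, add_sub_cancel_left, Complex.norm_real, Real.norm_of_nonneg (by linarith)]
      linarith
    refine ⟨_, h1, fun h => ?_⟩
    have h2 := hχi (hrs h1) hu₀ (sub_eq_zero.1 h)
    have h3 : ((r / 2 : ℝ) : ℂ) = 0 := by
      have h4 : u₀ + ((r / 2 : ℝ) : ℂ) - u₀ = 0 := sub_eq_zero.2 h2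
      rwa [add_sub_cancel_left] at h4
    have h5 : (r / 2 : ℝ) = 0 := by exact_mod_cast h3
    linarith

theorem CVD (hTPM : TPM_stmt) (hTDE : V3.TDE_stmt) (hTHU : V3.THU_stmt) : CVD_stmt := by
  intro V Ω φ χ hC ζ ζ₀ hζ₀ hζ
  have hRM : RM (χ '' UD) 0 χ := ⟨hC.dif, hC.inj, rfl, hC.val⟩
  have hopen : IsOpen UD := isOpen_ball
  have hd : ∀ l, DifferentiableOn ℂ (φ l) UD := fun l => (hC.rm l).dif
  -- the preimages
  have hpre : ∀ (ξ : ℕ → ℂ), ∀ u₀ ∈ UD, Tendsto ξ V (𝓝 (χ u₀)) →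
      (∀ᶠ l in (V : Filter ℕ), Function.invFunOn (φ l) UD (ξ l) ∈ UD ∧ φ l (Function.invFunOn (φ l) UD (ξ l)) = ξ l) ∧
      Tendsto (fun l => Function.invFunOn (φ l) UD (ξ l)) V (𝓝 u₀) := by
    intro ξ u₀ hu₀ hξ
    have hA := CVD_pre hTHU V φ χ hd hC.inj hC.cv u₀ hu₀ ξ hξ
    refine ⟨?_, ?_⟩
    · filter_upwards [hA 1 one_pos] with l hl
      obtain ⟨z, hz, hz1, -⟩ := hl
      have hm : ξ l ∈ φ l '' UD := ⟨z, hz, hz1⟩
      exact ⟨Function.invFunOn_mem hm, Function.invFunOn_eq hm⟩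
    · rw [Metric.tendsto_nhds]
      intro ε hε
      filter_upwards [hA ε hε] with l hl
      obtain ⟨z, hz, hz1, hz2⟩ := hl
      have hm : ξ l ∈ φ l '' UD := ⟨z, hz, hz1⟩
      have h1 : Function.invFunOn (φ l) UD (ξ l) = z :=
        (hC.rm l).inj (Function.invFunOn_mem hm) hz ((Function.invFunOn_eq hm).trans hz1.symm)
      rw [h1]
      exact hz2
  obtain ⟨-, hφ', -⟩ := hTDE V φ χ UD hopen (fun y hy => by
    obtain ⟨r, hr, hrb⟩ := Metric.isOpen_iff.1 hopen y hy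
    exact ⟨r, hr, Eventually.of_forall fun l => (hd l).mono hrb⟩) hC.cv
  obtain ⟨u₀, hu₀, rfl⟩ := hζ₀
  obtain ⟨hin, hlim⟩ := hpre ζ u₀ hu₀ hζ
  refine ⟨?_, ?_, ?_⟩
  · filter_upwards [hin] with l hl
    rw [← (hC.rm l).img]
    exact ⟨_, hl.1, hl.2⟩
  · have h2 : Tendsto (fun l => deriv (φ l) (Function.invFunOn (φ l) UD (ζ l))) V (𝓝 (deriv χ u₀)) := by
      refine hφ'.tendsto_comp (x := u₀) ?_ hu₀ ?_
      · exact (hC.dif.deriv hopen).continuousOn _ hu₀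
      · exact tendsto_nhdsWithin_iff.2 ⟨hlim, hlim.eventually (hopen.mem_nhds hu₀)⟩
    rw [((hTPM _ _ _ hRM).2 _ hu₀).1]
    refine Tendsto.congr' ?_ (h2.norm.mul (tendsto_const_nhds.sub (hlim.norm.pow 2)))
    filter_upwards [hin] with l hl
    have h3 := ((hTPM _ _ _ (hC.rm l)).2 _ hl.1).1
    rw [hl.2] at h3
    exact h3.symm
  · rintro ζ' ζ₀' ⟨v₀, hv₀, rfl⟩ hζ'
    obtain ⟨hin', hlim'⟩ := hpre ζ' v₀ hv₀ hζ'
    rw [((hTPM _ _ _ hRM).2 _ hu₀).2 _ hv₀]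
    refine Tendsto.congr' ?_ (P2.DIC_T V _ _ _ _ hu₀ hv₀ hlim hlim')
    filter_upwards [hin, hin'] with l hl hl'
    have h3 := ((hTPM _ _ _ (hC.rm l)).2 _ hl.1).2 _ hl'.1
    rw [hl.2, hl'.2] at h3
    exact h3.symm

end P2B
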